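import Pool.Agent.R593.Hd.Tree

/-!
Coding of points of the cube by binary sequences.
-/

namespace Pool.Agent.R593.Hd

open Finset MeasureTheory Filter
open scoped ENNReal Topology

/-- The `j`-th binary digit of a real. -/
noncomputable def dig (x : ℝ) (j : ℕ) : Bool := decide (⌊(2:ℝ)^(j+1) * x⌋ % 2 = 1)

theorem floor_two_mul (y : ℝ) : ⌊2 * y⌋ = 2 * ⌊y⌋ ∨ ⌊2 * y⌋ = 2 * ⌊y⌋ + 1 := by
  have h1 : 2 * ⌊y⌋ ≤ ⌊2 * y⌋ := by
    apply Int.le_floor.2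
    push_cast
    have := Int.floor_le y
    linarith
  have h2 : ⌊2 * y⌋ < 2 * ⌊y⌋ + 2 := by
    apply Int.floor_lt.2
    push_cast
    have := Int.lt_floor_add_one y
    linarith
  omega

theorem floor_eq_of_dig {x x' : ℝ} (h0 : ⌊x⌋ = ⌊x'⌋) (L : ℕ) (h : ∀ j < L, dig x j = dig x' j) :
    ⌊(2:ℝ)^L * x⌋ = ⌊(2:ℝ)^L * x'⌋ := by
  induction L with
  | zero => simpa using h0
  | succ L ih =>
    have h1 := ih (fun j hj => h j (by omega))
    have h2 := h L (by omega)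
    unfold dig at h2
    rw [decide_eq_decide] at h2
    have e1 : (2:ℝ)^(L+1) * x = 2 * ((2:ℝ)^L * x) := by ring
    have e2 : (2:ℝ)^(L+1) * x' = 2 * ((2:ℝ)^L * x') := by ring
    rw [e1, e2] at h2 ⊢
    rcases floor_two_mul ((2:ℝ)^L * x) with h3 | h3 <;>
      rcases floor_two_mul ((2:ℝ)^L * x') with h4 | h4 <;> omega

theorem dist_le_of_dig {x x' : ℝ} (h0 : ⌊x⌋ = ⌊x'⌋) (L : ℕ) (h : ∀ j < L, dig x j = dig x' j) :
    dist x x' ≤ (2:ℝ)^(-(L:ℝ)) := by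
  have h1 := Int.abs_sub_lt_one_of_floor_eq_floor (floor_eq_of_dig h0 L h)
  rw [← mul_sub, abs_mul, abs_of_pos (by positivity : (0:ℝ) < 2^L)] at h1
  rw [Real.dist_eq, Real.rpow_neg (by norm_num), Real.rpow_natCast]
  rw [inv_eq_one_div, le_div_iff₀ (by positivity)]
  linarith [mul_comm |x - x'| (2^L)]

/-- The code of a point. -/
noncomputable def code {n : ℕ} (hn : 0 < n) (p : Fin n → ℝ) : ℕ → Bool :=
  fun q => dig (p ⟨q % n, Nat.mod_lt _ hn⟩) (q / n)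

theorem code_apply {n : ℕ} (hn : 0 < n) (p : Fin n → ℝ) (i : Fin n) (j : ℕ) :
    code hn p (n * j + i) = dig (p i) j := by
  unfold code
  have h1 : (n * j + i) % n = i := by
    rw [Nat.mul_add_mod, Nat.mod_eq_of_lt i.2]
  have h2 : (n * j + i) / n = j := by
    rw [Nat.mul_add_div hn, Nat.div_eq_of_lt i.2, add_zero]
  rw [h2]
  congr 2
  exact Fin.ext h1

theorem edist_le_of_code {n : ℕ} (hn : 0 < n) {p p' : Fin n → ℝ} (h0 : ∀ i, ⌊p i⌋ = ⌊p' i⌋)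
    (ℓ : ℕ) (h : ∀ q < ℓ, code hn p q = code hn p' q) :
    edist p p' ≤ (2:ℝ≥0∞) ^ (-((ℓ / n : ℕ) : ℝ)) := by
  have e1 : (2:ℝ≥0∞) ^ (-((ℓ / n : ℕ) : ℝ)) = ENNReal.ofReal ((2:ℝ) ^ (-((ℓ / n : ℕ) : ℝ))) := by
    rw [← ENNReal.ofReal_rpow_of_pos (by norm_num : (0:ℝ) < 2)]
    norm_num
  rw [e1, edist_dist]
  apply ENNReal.ofReal_le_ofReal
  rw [dist_pi_le_iff (by positivity)]
  intro i
  apply dist_le_of_dig (h0 i)
  intro j hj
  rw [← code_apply hn, ← code_apply hn]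
  apply h
  have h1 : n * (ℓ / n) ≤ ℓ := Nat.mul_div_le _ _
  have h2 : n * (j + 1) ≤ n * (ℓ / n) := Nat.mul_le_mul_left _ hj
  have := i.2
  rw [Nat.mul_add] at h2
  omega

theorem rpow_wt {n : ℕ} (hn : 0 < n) {r : ℝ} (hr : 0 < r) (ℓ : ℕ) :
    ((2:ℝ≥0∞) ^ (-((ℓ / n : ℕ) : ℝ)))^r ≤ (2:ℝ≥0∞)^r * wt (r / n) ℓ := by
  unfold wt
  rw [← ENNReal.rpow_mul, ← ENNReal.rpow_add _ _ (by norm_num) (by norm_num)]
  apply ENNReal.rpow_le_rpow_of_exponent_le (by norm_num)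
  have h1 : ℓ < n * (ℓ / n + 1) := Nat.lt_mul_div_succ ℓ hn
  have h2 : (ℓ : ℝ) ≤ n * ((ℓ / n : ℕ) + 1) := by exact_mod_cast h1.le
  have hnR : (0:ℝ) < n := by exact_mod_cast hn
  have h3 : r / n * ℓ ≤ r * ((ℓ / n : ℕ) + 1) := by
    rw [div_mul_eq_mul_div, div_le_iff₀ hnR]
    calc r * ℓ ≤ r * (n * ((ℓ / n : ℕ) + 1)) := by gcongr
      _ = _ := by ring
  linarith

/-- A non-null set of dimension `r` in `ℝ^n` codes a set of positive content of dimension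
`r / n`. -/
theorem exists_code {n : ℕ} (hn : 0 < n) {r : ℝ} (hr : 0 < r) {A : Set (Fin n → ℝ)}
    (hA : Measure.hausdorffMeasure r A ≠ 0) :
    ∃ X : Set (ℕ → Bool), Pos (r / n) X ∧ Cardinal.mk X ≤ Cardinal.mk A := by
  obtain ⟨z, hz⟩ : ∃ z : Fin n → ℤ,
      Measure.hausdorffMeasure r (A ∩ {p | ∀ i, ⌊p i⌋ = z i}) ≠ 0 := by
    by_contra hcon
    push Not at hcon
    apply hA
    have h1 : A = ⋃ z : Fin n → ℤ, (A ∩ {p | ∀ i, ⌊p i⌋ = z i}) := by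
      ext p
      simp only [Set.mem_iUnion, Set.mem_inter_iff, Set.mem_ofPred_eq]
      constructor
      · intro hp; exact ⟨fun i => ⌊p i⌋, hp, fun i => rfl⟩
      · rintro ⟨_, h, _⟩; exact h
    rw [h1, measure_iUnion_null_iff]
    exact hcon
  set B := A ∩ {p | ∀ i, ⌊p i⌋ = z i} with hB
  refine ⟨code hn '' B, ?_, Cardinal.mk_image_le.trans
    (Cardinal.mk_le_mk_of_subset Set.inter_subset_left)⟩
  by_contra hcon
  apply hz
  have hc : ∀ N : ℕ, ∃ (ι : Type) (_ : Countable ι) (ℓ : ι → ℕ) (u : ι → ℕ → Bool),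
      (∀ x ∈ code hn '' B, ∃ i, ∀ j < ℓ i, x j = u i j) ∧
        ∑' i, wt (r / n) (ℓ i) < ((N:ℝ≥0∞) + 1)⁻¹ := by
    intro N
    by_contra hN
    apply hcon
    refine ⟨((N:ℝ≥0∞) + 1)⁻¹, ?_, ?_⟩
    · rw [ENNReal.inv_pos]
      exact ENNReal.add_ne_top.2 ⟨ENNReal.natCast_ne_top _, ENNReal.one_ne_top⟩
    · intro ι _ ℓ u hcov
      by_contra hlt
      rw [not_le] at hlt
      exact hN ⟨ι, inferInstance, ℓ, u, hcov, hlt⟩
  choose ι hι ℓ u hcov hsum using hc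
  let t : ∀ N, ι N → Set (Fin n → ℝ) := fun N i => {p ∈ B | ∀ j < ℓ N i, code hn p j = u N i j}
  have hd : ∀ N i, Metric.ediam (t N i) ≤ (2:ℝ≥0∞) ^ (-((ℓ N i / n : ℕ) : ℝ)) := by
    intro N i
    apply Metric.ediam_le
    intro p hp p' hp'
    apply edist_le_of_code hn
    · intro i; rw [hp.1.2 i, hp'.1.2 i]
    · intro q hq; rw [hp.2 q hq, hp'.2 q hq]
  have hd2 : ∀ N i, Metric.ediam (t N i) ^ r ≤ (2:ℝ≥0∞)^r * wt (r / n) (ℓ N i) := by
    intro N i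
    exact (ENNReal.rpow_le_rpow (hd N i) hr.le).trans (rpow_wt hn hr _)
  have h2r : (2:ℝ≥0∞)^r ≠ ⊤ := ENNReal.rpow_ne_top_of_nonneg hr.le (by norm_num)
  have hlim1 : Tendsto (fun N : ℕ => ((N:ℝ≥0∞) + 1)⁻¹) atTop (𝓝 0) := by
    have h1 := (ENNReal.tendsto_inv_nat_nhds_zero).comp (tendsto_add_atTop_nat 1)
    refine h1.congr ?_
    intro N
    simp
  have hlim2 : Tendsto (fun N : ℕ => (2:ℝ≥0∞)^r * ((N:ℝ≥0∞) + 1)⁻¹) atTop (𝓝 0) := by
    have := ENNReal.Tendsto.const_mul hlim1 (Or.inr h2r)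
    simpa using this
  have hlim3 : Tendsto (fun N : ℕ => ((2:ℝ≥0∞)^r * ((N:ℝ≥0∞) + 1)⁻¹)^(1/r)) atTop (𝓝 0) := by
    have h1 := (ENNReal.continuous_rpow_const (y := 1/r)).tendsto 0
    have h2 := h1.comp hlim2
    rwa [ENNReal.zero_rpow_of_pos (by positivity)] at h2
  have hmain := Measure.hausdorffMeasure_le_liminf_tsum r B (l := atTop)
    (fun N : ℕ => ((2:ℝ≥0∞)^r * ((N:ℝ≥0∞) + 1)⁻¹)^(1/r)) hlim3 t
    (Eventually.of_forall (fun N i => by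
      have h1 : Metric.ediam (t N i) ^ r ≤ (2:ℝ≥0∞)^r * ((N:ℝ≥0∞) + 1)⁻¹ := by
        refine (hd2 N i).trans ?_
        gcongr
        exact (ENNReal.le_tsum i).trans (hsum N).le
      calc Metric.ediam (t N i) = (Metric.ediam (t N i) ^ r)^(1/r) := by
            rw [← ENNReal.rpow_mul, mul_one_div_cancel hr.ne', ENNReal.rpow_one]
        _ ≤ _ := ENNReal.rpow_le_rpow h1 (by positivity)))
    (Eventually.of_forall (fun N p hp => by
      obtain ⟨i, hi⟩ := hcov N (code hn p) ⟨p, hp, rfl⟩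
      exact Set.mem_iUnion.2 ⟨i, hp, hi⟩))
  have h0 : liminf (fun N : ℕ => ∑' i, Metric.ediam (t N i) ^ r) atTop ≤ 0 := by
    calc _ ≤ liminf (fun N : ℕ => (2:ℝ≥0∞)^r * ((N:ℝ≥0∞) + 1)⁻¹) atTop := by
          apply liminf_le_liminf
          · refine Eventually.of_forall ?_
            intro N
            show ∑' i, Metric.ediam (t N i) ^ r ≤ (2:ℝ≥0∞)^r * ((N:ℝ≥0∞) + 1)⁻¹
            calc ∑' i, Metric.ediam (t N i) ^ r ≤ ∑' i, (2:ℝ≥0∞)^r * wt (r / n) (ℓ N i) :=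
                  ENNReal.tsum_le_tsum (hd2 N)
              _ = (2:ℝ≥0∞)^r * ∑' i, wt (r / n) (ℓ N i) := ENNReal.tsum_mul_left
              _ ≤ _ := by
                gcongr
                exact (hsum N).le
          · isBoundedDefault
          · isBoundedDefault
      _ = 0 := hlim2.liminf_eq
  exact le_antisymm (hmain.trans h0) bot_le

end Pool.Agent.R593.Hd
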