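import Mathlib

/-!
Nested avoidance in finite products and the random coloring lemma.
-/

namespace Pool.Agent.R593.Hd

open Finset

/-- `Avoid K k P`: for all but at most `K` first coordinates, for all but at most `K` second
coordinates (the exceptional set may depend on the first one), and so on, `P` holds. -/
def Avoid {B : Type} (K : ℕ) : (k : ℕ) → ((Fin k → B) → Prop) → Prop
  | 0, P => P (fun i => i.elim0)
  | (k+1), P => ∃ C : Finset B, C.card ≤ K ∧ ∀ z, z ∉ C →
      Avoid K k (fun v => P (Fin.cons z v))

open Classical in
/-- The colorings for which avoidance of the targets `T` fails. -/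
noncomputable def bad {B V : Type} [Fintype B] [Fintype V] (K k : ℕ)
    (T : (Fin k → B) → Finset V) : Finset ((Fin k → B) → V) :=
  univ.filter (fun c => ¬ Avoid K k (fun z => c z ∉ T z))

open Classical in
theorem mem_bad {B V : Type} [Fintype B] [Fintype V] {K k : ℕ}
    {T : (Fin k → B) → Finset V} {c : (Fin k → B) → V} :
    c ∈ bad K k T ↔ ¬ Avoid K k (fun z => c z ∉ T z) := by
  simp [bad]

open Classical in
theorem card_bad {B V : Type} [Fintype B] [Fintype V] [Nonempty B]
    (K mm : ℕ) (hK : 1 ≤ K) (hV : 2 * mm * (Fintype.card B)^2 ≤ Fintype.card V) :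
    ∀ (k : ℕ) (T : (Fin k → B) → Finset V), (∀ z, (T z).card ≤ mm) →
      (bad K k T).card * ((Fintype.card B)^2 * 2^((K+1)^k)) ≤
        Fintype.card ((Fin k → B) → V) := by
  intro k
  induction k with
  | zero =>
    intro T hT
    have h1 : (bad K 0 T).card ≤ (T (fun i => i.elim0)).card := by
      apply card_le_card_of_injOn (fun c => c (fun i => i.elim0))
      · intro c hc
        have := mem_bad.1 (mem_coe.1 hc)
        simp only [Avoid, not_not] at this
        exact mem_coe.2 this
      · intro c _ c' _ h
        funext x
        have : x = (fun i => i.elim0) := by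
          funext i; exact i.elim0
        rw [this]; exact h
    have h2 : Fintype.card ((Fin 0 → B) → V) = Fintype.card V := by
      simp [Fintype.card_fun]
    rw [h2]
    calc (bad K 0 T).card * ((Fintype.card B)^2 * 2^((K+1)^0))
        ≤ mm * ((Fintype.card B)^2 * 2^((K+1)^0)) :=
          Nat.mul_le_mul_right _ (h1.trans (hT _))
      _ = 2 * mm * (Fintype.card B)^2 := by ring
      _ ≤ _ := hV
  | succ k ih =>
    intro T hT
    set β := (Fintype.card B)^2 * 2^((K+1)^k) with hβ
    set N := Fintype.card ((Fin k → B) → V) with hN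
    have hN' : Fintype.card ((Fin (k+1) → B) → V) = N ^ (Fintype.card B) := by
      rw [hN]
      simp only [Fintype.card_fun, Fintype.card_fin]
      rw [← pow_mul]
      congr 1
      
    let Tz : B → (Fin k → B) → Finset V := fun z v => T (Fin.cons z v)
    let U : Finset B → Finset (B → ((Fin k → B) → V)) := fun S =>
      Fintype.piFinset (fun z => if z ∈ S then bad K k (Tz z) else univ)
    have h1 : (bad K (k+1) T).card ≤
        ((powersetCard (K+1) (univ : Finset B)).biUnion U).card := by
      apply card_le_card_of_injOn (fun c z v => c (Fin.cons z v))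
      · intro c hc
        have hc' := mem_bad.1 (mem_coe.1 hc)
        let Z : Finset B := univ.filter
          (fun z => ¬ Avoid K k (fun v => c (Fin.cons z v) ∉ T (Fin.cons z v)))
        have hZ : K + 1 ≤ Z.card := by
          by_contra hcon
          apply hc'
          refine ⟨Z, by omega, ?_⟩
          intro z hz
          by_contra hz'
          exact hz (by simp only [Z, mem_filter, mem_univ, true_and]; exact hz')
        obtain ⟨S, hSZ, hS⟩ := exists_subset_card_eq hZ
        apply mem_coe.2
        rw [mem_biUnion]
        refine ⟨S, mem_powersetCard.2 ⟨subset_univ _, hS⟩, ?_⟩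
        simp only [U, Fintype.mem_piFinset]
        intro z
        by_cases hz : z ∈ S
        · simp only [hz, if_true]
          rw [mem_bad]
          have := hSZ hz
          simp only [Z, mem_filter, mem_univ, true_and] at this
          exact this
        · simp [hz]
      · intro c _ c' _ h
        funext x
        have := congrFun (congrFun h (x 0)) (Fin.tail x)
        simpa using this
    have h2 : ∀ S ∈ powersetCard (K+1) (univ : Finset B), (U S).card * β^(K+1) ≤
        N ^ (Fintype.card B) := by
      intro S hS
      have hS' := (mem_powersetCard.1 hS).2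
      have e1 : β^(K+1) = ∏ z : B, (if z ∈ S then β else 1) := by
        rw [← hS', Finset.prod_ite_mem, univ_inter, prod_const]
      rw [e1]
      simp only [U, Fintype.card_piFinset]
      rw [← prod_mul_distrib]
      calc _ ≤ ∏ z : B, N := by
            apply prod_le_prod' 
            intro z _
            by_cases hz : z ∈ S
            · simp only [hz, if_true]
              exact ih (Tz z) (fun v => hT _)
            · simp only [hz, if_false, mul_one]
              exact card_le_univ _
        _ = N ^ (Fintype.card B) := by
            rw [prod_const, card_univ]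
    have hB : 1 ≤ Fintype.card B := Fintype.card_pos
    have h3 : (bad K (k+1) T).card * β^(K+1) ≤
        (Fintype.card B)^(K+1) * N^(Fintype.card B) := by
      calc (bad K (k+1) T).card * β^(K+1)
          ≤ (∑ S ∈ powersetCard (K+1) (univ : Finset B), (U S).card) * β^(K+1) :=
            Nat.mul_le_mul_right _ (h1.trans card_biUnion_le)
        _ = ∑ S ∈ powersetCard (K+1) (univ : Finset B), (U S).card * β^(K+1) := by
            rw [sum_mul]
        _ ≤ ∑ S ∈ powersetCard (K+1) (univ : Finset B), N^(Fintype.card B) :=
            sum_le_sum h2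
        _ = (Fintype.card B).choose (K+1) * N^(Fintype.card B) := by
            rw [sum_const, card_powersetCard, card_univ, smul_eq_mul]
        _ ≤ _ := Nat.mul_le_mul_right _ (Nat.choose_le_pow _ _)
    rw [hN']
    have h4 : β^(K+1) = (Fintype.card B)^(K+1) * ((Fintype.card B)^(K+1) * 2^((K+1)^(k+1))) := by
      rw [hβ, mul_pow, ← pow_mul, ← pow_mul, ← mul_assoc, ← pow_add]
      congr 2
      ring
    rw [h4] at h3
    have h5 : (bad K (k+1) T).card * ((Fintype.card B)^(K+1) * 2^((K+1)^(k+1))) ≤
        N^(Fintype.card B) := by
      have hpos : 0 < (Fintype.card B)^(K+1) := by positivity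
      apply Nat.le_of_mul_le_mul_left _ hpos
      calc _ = (bad K (k+1) T).card * ((Fintype.card B)^(K+1) *
            ((Fintype.card B)^(K+1) * 2^((K+1)^(k+1)))) := by ring
        _ ≤ _ := h3
    refine le_trans ?_ h5
    apply Nat.mul_le_mul_left
    apply Nat.mul_le_mul_right
    exact Nat.pow_le_pow_right hB (by omega)

open Classical in
/-- The random coloring lemma. -/
theorem exists_coloring {B V W : Type} [Fintype B] [Fintype V] [Fintype W] [Nonempty V]
    (K mm k : ℕ) (hK : 1 ≤ K) (hB : 2 ≤ Fintype.card B)
    (hV : 2 * mm * (Fintype.card B)^2 ≤ Fintype.card V)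
    (hVW : Fintype.card V * Fintype.card W ≤ (K+1)^k) (w : (Fin k → B) → W) :
    ∃ c : (Fin k → B) → V, ∀ τ : W → Finset V, (∀ a, (τ a).card ≤ mm) →
      Avoid K k (fun z => c z ∉ τ (w z)) := by
  by_contra hcon
  push Not at hcon
  haveI : Nonempty B := Fintype.card_pos_iff.1 (by omega)
  let Θ : Finset (W → Finset V) := univ.filter (fun τ => ∀ a, (τ a).card ≤ mm)
  have h1 : (univ : Finset ((Fin k → B) → V)) ⊆ Θ.biUnion (fun τ => bad K k (fun z => τ (w z))) := by
    intro c _
    obtain ⟨τ, h1, h2⟩ := hcon c
    rw [mem_biUnion]
    exact ⟨τ, by simp [Θ, h1], mem_bad.2 h2⟩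
  set N := Fintype.card ((Fin k → B) → V) with hN
  have hNpos : 0 < N := Fintype.card_pos
  have h2 : N * ((Fintype.card B)^2 * 2^((K+1)^k)) ≤ 2^(Fintype.card V * Fintype.card W) * N := by
    calc N * ((Fintype.card B)^2 * 2^((K+1)^k))
        = (univ : Finset ((Fin k → B) → V)).card * ((Fintype.card B)^2 * 2^((K+1)^k)) := by
          rw [card_univ]
      _ ≤ (∑ τ ∈ Θ, (bad K k (fun z => τ (w z))).card) * ((Fintype.card B)^2 * 2^((K+1)^k)) :=
          Nat.mul_le_mul_right _ ((card_le_card h1).trans card_biUnion_le)
      _ = ∑ τ ∈ Θ, (bad K k (fun z => τ (w z))).card * ((Fintype.card B)^2 * 2^((K+1)^k)) := by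
          rw [sum_mul]
      _ ≤ ∑ τ ∈ Θ, N := by
          apply sum_le_sum
          intro τ hτ
          exact card_bad K mm hK hV k _ (fun z => (mem_filter.1 hτ).2 _)
      _ = Θ.card * N := by rw [sum_const, smul_eq_mul]
      _ ≤ _ := by
          apply Nat.mul_le_mul_right
          calc Θ.card ≤ Fintype.card (W → Finset V) := card_le_univ _
            _ = _ := by rw [Fintype.card_fun, Fintype.card_finset, ← pow_mul]
  have h3 : (Fintype.card B)^2 * 2^((K+1)^k) ≤ 2^(Fintype.card V * Fintype.card W) := by
    apply Nat.le_of_mul_le_mul_left _ hNpos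
    linarith [mul_comm N (2^(Fintype.card V * Fintype.card W))]
  have h4 : 2^(Fintype.card V * Fintype.card W) ≤ 2^((K+1)^k) :=
    Nat.pow_le_pow_right (by norm_num) hVW
  have h5 : 4 ≤ (Fintype.card B)^2 := by nlinarith
  have h6 : 0 < 2^((K+1)^k) := by positivity
  nlinarith

end Pool.Agent.R593.Hd
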