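import Pool.Agent.R593.Hd.Tree

/-!
Decoding binary sequences into points of `ℝ^n` along a Cantor set with small gaps ratio.
-/

namespace Pool.Agent.R593.Hd

open Finset MeasureTheory Filter
open scoped ENNReal Topology

/-- The value of a binary sequence in base `1/λ`. -/
noncomputable def val (lam : ℝ) (b : ℕ → Bool) : ℝ := ∑' j, (if b j then lam ^ j else 0)

section

variable {lam : ℝ} (h0 : 0 < lam) (h1 : lam < 1/2)

include h0 h1

theorem val_summable (b : ℕ → Bool) : Summable (fun j => if b j then lam ^ j else 0) := by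
  apply Summable.of_nonneg_of_le (f := fun j => lam ^ j)
  · intro j; split_ifs <;> positivity
  · intro j; split_ifs
    · exact le_rfl
    · positivity
  · exact summable_geometric_of_lt_one h0.le (by linarith)

theorem val_nonneg (b : ℕ → Bool) : 0 ≤ val lam b := by
  apply tsum_nonneg
  intro j; split_ifs <;> positivity

theorem val_le (b : ℕ → Bool) : val lam b ≤ (1 - lam)⁻¹ := by
  rw [← tsum_geometric_of_lt_one h0.le (by linarith)]
  apply Summable.tsum_le_tsum _ (val_summable h0 h1 b)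
    (summable_geometric_of_lt_one h0.le (by linarith))
  intro j; split_ifs
  · exact le_rfl
  · positivity

theorem val_succ (b : ℕ → Bool) :
    val lam b = (if b 0 then 1 else 0) + lam * val lam (fun j => b (j+1)) := by
  unfold val
  rw [(val_summable h0 h1 b).tsum_eq_zero_add]
  rw [← tsum_mul_left]
  have e1 : ∀ j : ℕ, (if b (j+1) then lam ^ (j+1) else 0) =
      lam * (if b (j+1) then lam ^ j else 0) := by
    intro j
    split_ifs
    · ring
    · simp
  simp only [e1, pow_zero]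

/-- Sequences that first differ at `J` have distant values. -/
theorem le_dist_val (J : ℕ) : ∀ (b b' : ℕ → Bool), (∀ j < J, b j = b' j) → b J ≠ b' J →
    (1 - lam * (1-lam)⁻¹) * lam ^ J ≤ |val lam b - val lam b'| := by
  induction J with
  | zero =>
    intro b b' _ hne
    rw [val_succ h0 h1 b, val_succ h0 h1 b', pow_zero, mul_one]
    have a1 := val_nonneg h0 h1 (fun j => b (j+1))
    have a2 := val_nonneg h0 h1 (fun j => b' (j+1))
    have a3 := val_le h0 h1 (fun j => b (j+1))
    have a4 := val_le h0 h1 (fun j => b' (j+1))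
    have a5 := mul_le_mul_of_nonneg_left a3 h0.le
    have a6 := mul_le_mul_of_nonneg_left a4 h0.le
    have a7 := mul_nonneg h0.le a1
    have a8 := mul_nonneg h0.le a2
    cases hb : b 0 <;> cases hb' : b' 0
    · exact absurd (hb.trans hb'.symm) hne
    · simp only [Bool.false_eq_true, if_false, if_true]
      rw [abs_sub_comm]
      apply le_trans _ (le_abs_self _)
      linarith
    · simp only [Bool.false_eq_true, if_false, if_true]
      apply le_trans _ (le_abs_self _)
      linarith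
    · exact absurd (hb.trans hb'.symm) hne
  | succ J ih =>
    intro b b' hj hne
    rw [val_succ h0 h1 b, val_succ h0 h1 b', hj 0 (by omega)]
    have := ih (fun j => b (j+1)) (fun j => b' (j+1)) (fun j hjJ => hj (j+1) (by omega)) hne
    rw [add_sub_add_left_eq_sub, ← mul_sub, abs_mul, abs_of_pos h0, pow_succ]
    calc _ = lam * ((1 - lam * (1-lam)⁻¹) * lam ^ J) := by ring
      _ ≤ _ := mul_le_mul_of_nonneg_left this h0.le

theorem gap_pos : 0 < 1 - lam * (1-lam)⁻¹ := by
  have h2 : 0 < 1 - lam := by linarith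
  have h3 : lam * (1 - lam)⁻¹ < 1 := by
    rw [← div_eq_mul_inv, div_lt_one h2]
    linarith
  linarith

end

/-- The decoding map. -/
noncomputable def dec (n : ℕ) (lam : ℝ) (y : ℕ → Bool) : Fin n → ℝ :=
  fun i => val lam (fun j => y (n * j + i))

theorem agree_of_dist {n : ℕ} (hn : 0 < n) {lam : ℝ} (h0 : 0 < lam) (h1 : lam < 1/2)
    {y y' : ℕ → Bool} {δ : ℝ} (J : ℕ) (hJ : ∀ j < J, δ < (1 - lam * (1-lam)⁻¹) * lam ^ j)
    (hd : dist (dec n lam y) (dec n lam y') ≤ δ) : ∀ q < n * J, y q = y' q := by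
  intro q hq
  by_contra hne
  let i : Fin n := ⟨q % n, Nat.mod_lt _ hn⟩
  have hqi : n * (q / n) + (i:ℕ) = q := Nat.div_add_mod q n
  have hex : ∃ j, y (n * j + i) ≠ y' (n * j + i) := ⟨q / n, by rw [hqi]; exact hne⟩
  classical
  let j0 := Nat.find hex
  have hj0 : y (n * j0 + i) ≠ y' (n * j0 + i) := Nat.find_spec hex
  have hj1 : j0 ≤ q / n := Nat.find_min' hex (by rw [hqi]; exact hne)
  have hj2 : ∀ j < j0, y (n * j + i) = y' (n * j + i) := by
    intro j hj
    by_contra hcon
    exact Nat.find_min hex hj hcon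
  have hj3 : j0 < J := by
    refine lt_of_le_of_lt hj1 ?_
    rw [Nat.div_lt_iff_lt_mul hn, mul_comm]
    exact hq
  have a1 := le_dist_val h0 h1 j0 (fun j => y (n * j + i)) (fun j => y' (n * j + i)) hj2 hj0
  have a2 : |val lam (fun j => y (n * j + i)) - val lam (fun j => y' (n * j + i))| ≤ δ := by
    refine le_trans ?_ hd
    exact dist_le_pi_dist (dec n lam y) (dec n lam y') i
  have a3 := hJ j0 hj3
  linarith

theorem exists_cyl {n : ℕ} (hn : 0 < n) {lam s σ : ℝ} (h0 : 0 < lam) (h1 : lam < 1/2) (hs : 0 < s)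
    (hσ : ∀ J : ℕ, wt σ (n * J) = ENNReal.ofReal ((lam ^ J) ^ s))
    (U : Set (Fin n → ℝ)) (η : ℝ≥0∞) (hη : 0 < η) :
    ∃ (ℓ : ℕ) (u : ℕ → Bool), (∀ y, dec n lam y ∈ U → ∀ j < ℓ, y j = u j) ∧
      wt σ ℓ ≤ ENNReal.ofReal (((1 - lam * (1-lam)⁻¹)⁻¹)^s) * (Metric.ediam U)^s + η := by
  have hc := gap_pos h0 h1
  set c := 1 - lam * (1-lam)⁻¹ with hcdef
  by_cases htop : Metric.ediam U = ⊤
  · refine ⟨0, fun _ => false, fun y _ j hj => absurd hj (Nat.not_lt_zero _), ?_⟩
    rw [htop, ENNReal.top_rpow_of_pos hs, ENNReal.mul_top]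
    · simp
    · rw [Ne, ENNReal.ofReal_eq_zero, not_le]
      positivity
  -- it suffices to find `J`
  suffices hsuff : ∃ J : ℕ, (∀ j < J, (Metric.ediam U).toReal < c * lam ^ j) ∧
      ENNReal.ofReal ((lam ^ J) ^ s) ≤
        ENNReal.ofReal ((c⁻¹)^s) * (Metric.ediam U)^s + η by
    obtain ⟨J, hJ1, hJ2⟩ := hsuff
    by_cases hne : ∃ y, dec n lam y ∈ U
    · obtain ⟨y0, hy0⟩ := hne
      refine ⟨n * J, y0, ?_, by rw [hσ]; exact hJ2⟩
      intro y hy
      apply agree_of_dist hn h0 h1 J hJ1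
      rw [dist_edist]
      exact ENNReal.toReal_mono htop (Metric.edist_le_ediam_of_mem hy hy0)
    · refine ⟨n * J, fun _ => false, ?_, by rw [hσ]; exact hJ2⟩
      intro y hy
      exact absurd ⟨y, hy⟩ hne
  have hlim : Tendsto (fun J : ℕ => lam ^ J) atTop (𝓝 0) :=
    tendsto_pow_atTop_nhds_zero_of_lt_one h0.le (by linarith)
  by_cases hzero : Metric.ediam U = 0
  · have hlim2 : Tendsto (fun J : ℕ => ENNReal.ofReal ((lam ^ J) ^ s)) atTop (𝓝 0) := by
      have h2 : Tendsto (fun J : ℕ => (lam ^ J) ^ s) atTop (𝓝 0) := by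
        have := (Real.continuousAt_rpow_const 0 s (Or.inr hs.le)).tendsto.comp hlim
        rwa [Real.zero_rpow hs.ne'] at this
      have h3 := (ENNReal.continuous_ofReal.tendsto 0).comp h2
      rwa [ENNReal.ofReal_zero] at h3
    obtain ⟨J, hJ⟩ := (hlim2.eventually_lt_const hη).exists
    refine ⟨J, ?_, ?_⟩
    · intro j _
      rw [hzero]
      simp only [ENNReal.toReal_zero]
      positivity
    · exact hJ.le.trans le_add_self
  · have hδ : 0 < (Metric.ediam U).toReal := ENNReal.toReal_pos hzero htop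
    set δ := (Metric.ediam U).toReal with hδdef
    have hex : ∃ J : ℕ, c * lam ^ J ≤ δ := by
      have h2 : Tendsto (fun J : ℕ => c * lam ^ J) atTop (𝓝 0) := by
        have := hlim.const_mul c
        rwa [mul_zero] at this
      obtain ⟨J, hJ⟩ := (h2.eventually_lt_const hδ).exists
      exact ⟨J, hJ.le⟩
    classical
    let J := Nat.find hex
    have hJ : c * lam ^ J ≤ δ := Nat.find_spec hex
    refine ⟨J, ?_, ?_⟩
    · intro j hj
      have := Nat.find_min hex hj
      exact not_le.1 this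
    · refine le_trans ?_ le_self_add
      have e1 : Metric.ediam U = ENNReal.ofReal δ := (ENNReal.ofReal_toReal htop).symm
      rw [e1, ENNReal.ofReal_rpow_of_pos hδ, ← ENNReal.ofReal_mul (by positivity)]
      apply ENNReal.ofReal_le_ofReal
      rw [← Real.mul_rpow (by positivity) hδ.le]
      apply Real.rpow_le_rpow (by positivity) _ hs.le
      rw [inv_mul_eq_div, le_div_iff₀ hc, mul_comm]
      exact hJ

/-- The decoding of a set of positive content is not null. -/
theorem dec_ne_zero {n : ℕ} (hn : 0 < n) {s s' : ℝ} (hs : 0 < s) (hss : s < s')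
    {Y : Set (ℕ → Bool)} (hY : Pos (s' / n) Y) :
    Measure.hausdorffMeasure s (dec n ((2:ℝ)^(-(s'/s))) '' Y) ≠ 0 := by
  set lam : ℝ := (2:ℝ)^(-(s'/s)) with hlam
  have h0 : 0 < lam := by positivity
  have h1 : lam < 1/2 := by
    have : (1/2 : ℝ) = (2:ℝ)^(-1:ℝ) := by
      rw [Real.rpow_neg_one]; norm_num
    rw [this, hlam]
    apply Real.rpow_lt_rpow_of_exponent_lt (by norm_num)
    have : 1 < s' / s := by rwa [one_lt_div hs]
    linarith
  have hnR : (0:ℝ) < n := by exact_mod_cast hn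
  have hσ : ∀ J : ℕ, wt (s' / n) (n * J) = ENNReal.ofReal ((lam ^ J) ^ s) := by
    intro J
    unfold wt
    have e0 : (2:ℝ≥0∞) = ENNReal.ofReal 2 := by norm_num
    rw [e0, ENNReal.ofReal_rpow_of_pos (by norm_num)]
    congr 1
    rw [hlam, ← Real.rpow_natCast, ← Real.rpow_mul (by positivity), ← Real.rpow_mul (by positivity)]
    congr 1
    push_cast
    field_simp
  obtain ⟨ε0, hε0, hYε0⟩ := hY
  set ε := min ε0 1 with hεdef
  have hε : 0 < ε := lt_min hε0 one_pos
  have hεtop : ε ≠ ⊤ := ne_top_of_le_ne_top ENNReal.one_ne_top (min_le_right _ _)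
  have hYε : PosE (s' / n) ε Y := by
    intro ι _ ℓ u hcov
    exact (min_le_left _ _).trans (hYε0 ι ℓ u hcov)
  intro hnull
  set C : ℝ≥0∞ := ENNReal.ofReal (((1 - lam * (1-lam)⁻¹)⁻¹)^s) with hC
  have hCtop : C ≠ ⊤ := ENNReal.ofReal_ne_top
  rw [Measure.hausdorffMeasure_apply, ENNReal.iSup_eq_zero] at hnull
  have hn1 := hnull 1
  rw [ENNReal.iSup_eq_zero] at hn1
  have hn2 := hn1 one_pos
  have hpos : 0 < ε / 2 / C := ENNReal.div_pos (ENNReal.half_pos hε.ne').ne' hCtop
  have hlt := hn2.trans_lt hpos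
  rw [iInf_lt_iff] at hlt
  obtain ⟨t, ht⟩ := hlt
  rw [iInf_lt_iff] at ht
  obtain ⟨hcov, ht⟩ := ht
  rw [iInf_lt_iff] at ht
  obtain ⟨_, ht⟩ := ht
  obtain ⟨η, hη, hηsum⟩ := ENNReal.exists_pos_sum_of_countable (ENNReal.half_pos hε.ne').ne' ℕ
  have hcyl := fun i : ℕ => exists_cyl hn h0 h1 hs hσ (t i) (η i) (by exact_mod_cast hη i)
  choose ℓ u hu1 hu2 using hcyl
  have hle := hYε ℕ ℓ u (by
    intro y hy
    obtain ⟨i, hi⟩ := Set.mem_iUnion.1 (hcov ⟨y, hy, rfl⟩)
    exact ⟨i, hu1 i y hi⟩)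
  refine absurd hle (not_le.2 ?_)
  calc ∑' i, wt (s' / n) (ℓ i) ≤ ∑' i, (C * (Metric.ediam (t i))^s + (η i : ℝ≥0∞)) :=
        ENNReal.tsum_le_tsum hu2
    _ = C * ∑' i, (Metric.ediam (t i))^s + ∑' i, (η i : ℝ≥0∞) := by
        rw [ENNReal.tsum_add, ENNReal.tsum_mul_left]
    _ ≤ C * (ε / 2 / C) + ∑' i, (η i : ℝ≥0∞) := by
        gcongr
        refine le_trans ?_ ht.le
        apply ENNReal.tsum_le_tsum
        intro i
        rcases (t i).eq_empty_or_nonempty with h | h
        · rw [h, Metric.ediam_empty, ENNReal.zero_rpow_of_pos hs]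
          exact bot_le
        · simp [h]
    _ ≤ ε / 2 + ∑' i, (η i : ℝ≥0∞) := by
        gcongr
        exact ENNReal.mul_div_le
    _ < ε / 2 + ε / 2 := by
        apply ENNReal.add_lt_add_left _ hηsum
        exact ENNReal.div_ne_top hεtop (by norm_num)
    _ = ε := ENNReal.add_halves ε

end Pool.Agent.R593.Hd
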