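import Pool.Agent.R593.Hd.Sched
import Pool.Agent.R593.Hd.Code
import Pool.Agent.R593.Hd.Dec

/-!
From a non-null set of dimension `r` in `ℝ^n` to a non-null set of dimension `s < m` in `ℝ^m`
of at most the same cardinality.
-/

namespace Pool.Agent.R593.Hd

open MeasureTheory
open scoped ENNReal

theorem transfer_pi {n m : ℕ} (hn : 0 < n) (hm : 0 < m) {r s : ℝ} (hr : 0 < r) (hs : 0 < s)
    (hsm : s < m) {A : Set (Fin n → ℝ)} (hA : Measure.hausdorffMeasure r A ≠ 0) :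
    ∃ Z : Set (Fin m → ℝ), Measure.hausdorffMeasure s Z ≠ 0 ∧ Cardinal.mk Z ≤ Cardinal.mk A := by
  have hinf : Cardinal.aleph0 ≤ Cardinal.mk A := by
    by_contra hcon
    rw [not_le, Cardinal.lt_aleph0_iff_set_finite] at hcon
    apply hA
    haveI := Measure.nullSingletonClass_hausdorff (Fin n → ℝ) hr
    exact hcon.measure_zero _
  obtain ⟨X, hX, hXA⟩ := exists_code hn hr hA
  obtain ⟨s', hs1, hs2⟩ : ∃ s', s < s' ∧ s' < m := exists_between hsm
  have hmR : (0:ℝ) < m := by exact_mod_cast hm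
  have hnR : (0:ℝ) < n := by exact_mod_cast hn
  obtain ⟨k, F, hF⟩ := exists_pos_image (ρ := r / n) (σ := s' / m) (by positivity)
    (div_pos (hs.trans hs1) hmR) (by rwa [div_lt_one hmR]) hX
  refine ⟨_, dec_ne_zero hm hs hs1 hF, ?_⟩
  refine Cardinal.mk_image_le.trans (Cardinal.mk_image_le.trans ?_)
  have e : {x : Fin k → (ℕ → Bool) | ∀ i, x i ∈ X} ≃ (Fin k → X) :=
    { toFun := fun x i => ⟨x.1 i, x.2 i⟩
      invFun := fun f => ⟨fun i => (f i).1, fun i => (f i).2⟩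
      left_inv := fun x => rfl
      right_inv := fun f => rfl }
  rw [Cardinal.mk_congr e, Cardinal.mk_pi, Cardinal.prod_const]
  simp only [Cardinal.lift_uzero, Cardinal.mk_fin, Cardinal.lift_id]
  calc Cardinal.mk X ^ (k : Cardinal) ≤ Cardinal.mk A ^ (k : Cardinal) :=
        Cardinal.power_le_power_right hXA
    _ ≤ Cardinal.mk A := Cardinal.power_nat_le hinf

theorem transfer {n m : ℕ} (hn : 0 < n) (hm : 0 < m) {r s : ℝ} (hr : 0 < r) (hs : 0 < s)
    (hsm : s < m) {A : Set (EuclideanSpace ℝ (Fin n))} (hA : Measure.hausdorffMeasure r A ≠ 0) :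
    ∃ Z : Set (EuclideanSpace ℝ (Fin m)), Measure.hausdorffMeasure s Z ≠ 0 ∧
      Cardinal.mk Z ≤ Cardinal.mk A := by
  have h1 : Measure.hausdorffMeasure r
      ((fun p : EuclideanSpace ℝ (Fin n) => (WithLp.ofLp p : Fin n → ℝ)) '' A) ≠ 0 := by
    intro h0
    apply hA
    have h2 := (PiLp.antilipschitzWith_ofLp 2 (fun _ : Fin n => ℝ)).le_hausdorffMeasure_image
      hr.le A
    have h3 : Measure.hausdorffMeasure r (WithLp.ofLp '' A) = 0 := h0
    rw [h3, mul_zero] at h2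
    exact le_antisymm h2 bot_le
  obtain ⟨Z, hZ, hZA⟩ := transfer_pi hn hm hr hs hsm h1
  refine ⟨(WithLp.toLp 2) '' Z, ?_, Cardinal.mk_image_le.trans (hZA.trans Cardinal.mk_image_le)⟩
  intro h0
  apply hZ
  have h2 := (PiLp.lipschitzWith_ofLp 2 (fun _ : Fin m => ℝ)).hausdorffMeasure_image_le hs.le
    ((WithLp.toLp 2) '' Z)
  rw [h0, mul_zero, Set.image_image] at h2
  simp only [Set.image_id'] at h2
  exact le_antisymm h2 bot_le

theorem univ_ne_zero {n : ℕ} {r : ℝ} (hrn : r ≤ n) :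
    Measure.hausdorffMeasure r (Set.univ : Set (EuclideanSpace ℝ (Fin n))) ≠ 0 := by
  intro h0
  have h1 : Measure.hausdorffMeasure (n:ℝ) (Set.univ : Set (EuclideanSpace ℝ (Fin n))) = 0 :=
    le_antisymm ((Measure.hausdorffMeasure_mono hrn _).trans h0.le) bot_le
  have h2 := (PiLp.lipschitzWith_ofLp 2 (fun _ : Fin n => ℝ)).hausdorffMeasure_image_le
    (Nat.cast_nonneg n) (Set.univ : Set (EuclideanSpace ℝ (Fin n)))
  have h1' : Measure.hausdorffMeasure (n:ℝ)
    (Set.univ : Set (WithLp 2 (Fin n → ℝ))) = 0 := h1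
  rw [h1, mul_zero, Set.image_univ] at h2
  have h3 : Set.range (WithLp.ofLp : WithLp 2 (Fin n → ℝ) → (Fin n → ℝ)) = Set.univ :=
    Set.range_eq_univ.2 (fun y => ⟨WithLp.toLp 2 y, rfl⟩)
  rw [h3] at h2
  have h4 : Measure.hausdorffMeasure (n:ℝ) (Set.univ : Set (Fin n → ℝ)) =
      (volume : Measure (Fin n → ℝ)) Set.univ := by
    have := hausdorffMeasure_pi_real (ι := Fin n)
    rw [Fintype.card_fin] at this
    rw [this]
  rw [h4] at h2
  have h5 : (volume : Measure (Fin n → ℝ)) Set.univ ≠ 0 :=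
    (Measure.measure_univ_pos.2 (NeZero.ne _)).ne'
  exact h5 (le_antisymm h2 bot_le)

end Pool.Agent.R593.Hd
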