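import Pool.Agent.R593.Hd.Tree

/-!
Existence of schedules, and the tree theorem without parameters.
-/

namespace Pool.Agent.R593.Hd

open Finset
open scoped ENNReal

theorem wt_eq_ofReal (ρ : ℝ) (ℓ : ℕ) : wt ρ ℓ = ENNReal.ofReal ((2:ℝ) ^ (-(ρ * ℓ))) := by
  unfold wt
  rw [← ENNReal.ofReal_rpow_of_pos (by norm_num : (0:ℝ) < 2)]
  norm_num

/-- The positions. -/
def aS (D : ℕ) : ℕ → ℕ
  | 0 => D
  | (m+1) => aS D m + aS D m / D

theorem aS_succ (D m : ℕ) : aS D (m+1) = aS D m + aS D m / D := rfl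

theorem aS_ge (D : ℕ) (hD : 1 ≤ D) (m : ℕ) : D + m ≤ aS D m := by
  induction m with
  | zero => simp [aS]
  | succ m ih =>
    rw [aS_succ]
    have : 1 ≤ aS D m / D := by
      rw [Nat.le_div_iff_mul_le (by omega)]
      omega
    omega

theorem exists_sched {ρ σ : ℝ} (hρ : 0 < ρ) (hσ : 0 < σ) (hσ1 : σ < 1) :
    ∃ (S : Sched) (t : ℝ), (∀ m, σ * S.a (m+1) ≤ t * S.a m) ∧
      (∀ m, S.m1 ≤ m → ∀ n : ℕ, (n:ℝ) ≤ (2:ℝ)^(t * S.A m) → n ≤ S.M m) ∧
      ∑' m, (S.K m : ℝ≥0∞) * wt ρ (S.h m) ≠ ⊤ := by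
  obtain ⟨t, ht1, ht2⟩ : ∃ t, σ < t ∧ t < 1 := exists_between hσ1
  -- D
  obtain ⟨D, hD⟩ := exists_nat_gt (σ / (t - σ))
  have htσ : 0 < t - σ := by linarith
  have hD' : σ < D * (t - σ) := by
    rw [div_lt_iff₀ htσ] at hD; exact hD
  have hDpos : 1 ≤ D := by
    rcases Nat.eq_zero_or_pos D with h | h
    · rw [h] at hD'; simp at hD'; linarith
    · exact h
  have hDR : (0:ℝ) < D := by exact_mod_cast hDpos
  -- P
  have h1t : 0 < 1 - t := by linarith
  obtain ⟨P, hP⟩ := exists_nat_gt (4 / (1 - t))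
  have hP' : 4 < P * (1 - t) := by
    rw [div_lt_iff₀ h1t] at hP; exact hP
  have hPpos : 1 ≤ P := by
    rcases Nat.eq_zero_or_pos P with h | h
    · rw [h] at hP'; simp at hP'; linarith
    · exact h
  have hPR : (0:ℝ) < P := by exact_mod_cast hPpos
  -- k
  obtain ⟨k, hk⟩ := exists_nat_gt (4 * P * (D + 1) / ρ)
  have hk' : 4 * P * (D+1) < k * ρ := by
    rw [div_lt_iff₀ hρ] at hk; exact hk
  -- the functions
  let a := aS D
  let A : ℕ → ℕ := fun m => a m / D
  let h : ℕ → ℕ := fun m => A m / P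
  let K : ℕ → ℕ := fun m => ⌊(2:ℝ)^(ρ * h m / 2)⌋₊
  let M : ℕ → ℕ := fun m => ⌊(2:ℝ)^(t * A m)⌋₊
  have ha_ge : ∀ m, D + m ≤ a m := fun m => aS_ge D hDpos m
  have ha_mono : ∀ m, a m ≤ a (m+1) := fun m => by
    exact Nat.le_add_right (a m) (a m / D)
  have hA_mono : ∀ m, A m ≤ A (m+1) := fun m => Nat.div_le_div_right (ha_mono m)
  have hh_mono : ∀ m, h m ≤ h (m+1) := fun m => Nat.div_le_div_right (hA_mono m)
  have hA_pos : ∀ m, 1 ≤ A m := by
    intro m
    show 1 ≤ a m / D
    rw [Nat.le_div_iff_mul_le (by omega)]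
    have := ha_ge m
    omega
  have hA_large : ∀ q m, D * q ≤ m → q ≤ A m := by
    intro q m hm
    show q ≤ a m / D
    rw [Nat.le_div_iff_mul_le (by omega)]
    have := ha_ge m
    nlinarith
  have hA_le : ∀ m, (A m : ℝ) ≤ a m / D := fun m => Nat.cast_div_le
  have hh_le : ∀ m, (h m : ℝ) ≤ A m / P := fun m => Nat.cast_div_le
  let m1 : ℕ := D * P
  have hA1 : ∀ m, m1 ≤ m → P ≤ A m := fun m hm => hA_large P m hm
  have hh_pos : ∀ m, m1 ≤ m → 1 ≤ h m := by
    intro m hm
    show 1 ≤ A m / P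
    rw [Nat.le_div_iff_mul_le (by omega)]
    have := hA1 m hm
    omega
  have hK_pos : ∀ m, 1 ≤ K m := by
    intro m
    apply Nat.le_floor
    simp only [Nat.cast_one]
    apply Real.one_le_rpow (by norm_num)
    positivity
  have hK_le : ∀ m, (K m : ℝ) ≤ (2:ℝ)^(ρ * h m / 2) := fun m => Nat.floor_le (by positivity)
  have hK_gt : ∀ m, (2:ℝ)^(ρ * h m / 2) ≤ K m + 1 := fun m => (Nat.lt_floor_add_one _).le
  have hM_le : ∀ m, (M m : ℝ) ≤ (2:ℝ)^(t * A m) := fun m => Nat.floor_le (by positivity)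
  have hV : ∀ m, m1 ≤ m → 2 * M m * (2 ^ h m)^2 ≤ 2 ^ A m := by
    intro m hm
    have : (2 * M m * (2 ^ h m)^2 : ℝ) ≤ 2 ^ A m := by
      calc (2 * M m * (2 ^ h m)^2 : ℝ) ≤ 2 * (2:ℝ)^(t * A m) * (2 ^ h m)^2 := by
            have := hM_le m
            gcongr
        _ = (2:ℝ)^(1 + t * A m + 2 * h m) := by
            rw [Real.rpow_add (by norm_num), Real.rpow_add (by norm_num), Real.rpow_one]
            congr 1
            rw [← pow_mul, ← Real.rpow_natCast]
            congr 1
            push_cast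
            ring
        _ ≤ (2:ℝ)^((A m : ℝ)) := by
            apply Real.rpow_le_rpow_of_exponent_le (by norm_num)
            have h1 := hh_le m
            have h2 : (P:ℝ) ≤ A m := by exact_mod_cast hA1 m hm
            have h3 : (h m : ℝ) * P ≤ A m := by
              rw [le_div_iff₀ hPR] at h1; exact h1
            -- 1 ≤ (1-t) A - 2 h
            have h4 : 2 * (h m : ℝ) ≤ (1 - t) * A m / 2 := by
              have h5 : 4 * (h m : ℝ) ≤ P * (1-t) * h m := by
                have : (0:ℝ) ≤ h m := by positivity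
                nlinarith
              nlinarith
            have h6 : 1 ≤ (1 - t) * A m / 2 := by
              have : 4 < (1 - t) * A m := by nlinarith
              linarith
            linarith
        _ = 2 ^ A m := by rw [Real.rpow_natCast]
    exact_mod_cast this
  have hVW : ∀ m, m1 ≤ m → 2 ^ A m * 2 ^ a m ≤ (K m + 1)^k := by
    intro m hm
    have : (2 ^ A m * 2 ^ a m : ℝ) ≤ ((K m : ℝ) + 1)^k := by
      calc (2 ^ A m * 2 ^ a m : ℝ) = (2:ℝ)^((A m + a m : ℕ) : ℝ) := by
            rw [Real.rpow_natCast, pow_add]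
        _ ≤ (2:ℝ)^((ρ * h m / 2) * k) := by
            apply Real.rpow_le_rpow_of_exponent_le (by norm_num)
            have h1 : a m < D * (A m + 1) := by
              have := Nat.lt_mul_div_succ (a m) (show 0 < D by omega)
              exact this
            have h2 : A m < P * (h m + 1) := by
              have := Nat.lt_mul_div_succ (A m) (show 0 < P by omega)
              exact this
            have h3 := hh_pos m hm
            have h4 : A m + 1 ≤ 2 * P * h m := by nlinarith
            have h5 : A m + a m ≤ (D + 1) * (2 * P * h m) := by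
              calc A m + a m ≤ (D+1) * (A m + 1) := by nlinarith
                _ ≤ _ := Nat.mul_le_mul_left _ h4
            have h6 : ((A m + a m : ℕ) : ℝ) ≤ (D + 1) * (2 * P * h m) := by
              exact_mod_cast h5
            refine h6.trans ?_
            have h7 : (0:ℝ) ≤ h m := by positivity
            nlinarith
        _ = ((2:ℝ)^(ρ * h m / 2))^k := by
            rw [← Real.rpow_natCast, ← Real.rpow_mul (by norm_num)]
        _ ≤ _ := by
            apply pow_le_pow_left₀ (by positivity) (hK_gt m)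
    exact_mod_cast this
  refine ⟨{ k := k, a := a, A := A, h := h, K := K, M := M, m1 := m1, a_succ := fun m => rfl,
            A_pos := hA_pos, h_mono := hh_mono, K_pos := fun m _ => hK_pos m, h_pos := hh_pos,
            hV := hV, hVW := hVW }, t, ?_, ?_, ?_⟩
  · intro m
    show σ * ((a m + A m : ℕ) : ℝ) ≤ t * a m
    push_cast
    have h1 := hA_le m
    have h0 : (0:ℝ) ≤ a m := by positivity
    have h2 : (A m : ℝ) * D ≤ a m := by
      rw [le_div_iff₀ hDR] at h1; exact h1
    have h3 : σ * A m ≤ (t - σ) * a m := by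
      have h4 : σ * A m ≤ D * (t - σ) * A m := by
        have : (0:ℝ) ≤ A m := by positivity
        nlinarith
      nlinarith
    nlinarith
  · intro m _ n hn
    exact Nat.le_floor hn
  · show ∑' m, (K m : ℝ≥0∞) * wt ρ (h m) ≠ ⊤
    set q : ℝ := (2:ℝ)^(-(ρ / (2 * (D * P)))) with hq
    have hDP : (0:ℝ) < D * P := by positivity
    have hq0 : 0 ≤ q := by positivity
    have hq1 : q < 1 := by
      apply Real.rpow_lt_one_of_one_lt_of_neg (by norm_num)
      have : 0 < ρ / (2 * (D * P)) := by positivity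
      linarith
    have hsum : Summable (fun m : ℕ => (2:ℝ)^(ρ/2) * q^m) :=
      (summable_geometric_of_lt_one hq0 hq1).mul_left _
    refine ne_top_of_le_ne_top hsum.tsum_ofReal_ne_top ?_
    apply ENNReal.tsum_le_tsum
    intro m
    rw [wt_eq_ofReal, ← ENNReal.ofReal_natCast, ← ENNReal.ofReal_mul (by positivity)]
    apply ENNReal.ofReal_le_ofReal
    calc (K m : ℝ) * (2:ℝ)^(-(ρ * h m)) ≤ (2:ℝ)^(ρ * h m / 2) * (2:ℝ)^(-(ρ * h m)) := by
          have := hK_le m
          gcongr
      _ = (2:ℝ)^(-(ρ * h m / 2)) := by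
          rw [← Real.rpow_add (by norm_num)]
          congr 1
          ring
      _ ≤ (2:ℝ)^(ρ/2 + (-(ρ / (2 * (D * P)))) * m) := by
          apply Real.rpow_le_rpow_of_exponent_le (by norm_num)
          have h1 : h m = a m / (D * P) := Nat.div_div_eq_div_mul _ _ _
          have h2 : m < (D * P) * (h m + 1) := by
            have h3 := Nat.lt_mul_div_succ (a m) (show 0 < D * P by positivity)
            rw [h1]
            have := ha_ge m
            omega
          have h4 : (m : ℝ) ≤ (D * P) * (h m + 1) := by exact_mod_cast h2.le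
          have h5 : ρ / (2 * (D * P)) * m ≤ ρ / 2 * (h m + 1) := by
            rw [div_mul_eq_mul_div, div_le_iff₀ (by positivity)]
            calc ρ * m ≤ ρ * ((D * P) * (h m + 1)) := by gcongr
              _ = _ := by ring
          linarith
      _ = (2:ℝ)^(ρ/2) * q^m := by
          rw [Real.rpow_add (by norm_num), Real.rpow_mul (by norm_num), Real.rpow_natCast]

/-- The tree theorem: for every `σ < 1` a set of positive `ρ`-content has a finite power that maps
onto a set of positive `σ`-content. -/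
theorem exists_pos_image {ρ σ : ℝ} (hρ : 0 < ρ) (hσ : 0 < σ) (hσ1 : σ < 1)
    {X : Set (ℕ → Bool)} (hX : Pos ρ X) :
    ∃ (k : ℕ) (F : (Fin k → (ℕ → Bool)) → (ℕ → Bool)), Pos σ (F '' {x | ∀ i, x i ∈ X}) := by
  obtain ⟨S, t, h1, h2, h3⟩ := exists_sched hρ hσ hσ1
  exact ⟨S.k, lim S, pos_lim S hσ h1 h2 h3 hX⟩

end Pool.Agent.R593.Hd
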