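import Pool.Agent.R593.Hd.Count

/-!
The tree theorem: from a set of positive `ρ`-dimensional outer content in Cantor space, `k`-lists of
members of the set are mapped onto a set of positive `σ`-dimensional content.
-/

namespace Pool.Agent.R593.Hd

open Finset
open scoped ENNReal

/-- The weight of a cylinder of length `ℓ` in dimension `ρ`. -/
noncomputable def wt (ρ : ℝ) (ℓ : ℕ) : ℝ≥0∞ := (2:ℝ≥0∞) ^ (-(ρ * ℓ))

theorem wt_pos (ρ : ℝ) (ℓ : ℕ) : 0 < wt ρ ℓ :=
  ENNReal.rpow_pos (by norm_num) (by norm_num)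

theorem wt_ne_top (ρ : ℝ) (ℓ : ℕ) : wt ρ ℓ ≠ ⊤ :=
  ENNReal.rpow_ne_top_of_ne_zero (by norm_num) (by norm_num)

theorem wt_le_wt {ρ σ : ℝ} {ℓ ℓ' : ℕ} (h : σ * ℓ' ≤ ρ * ℓ) : wt ρ ℓ ≤ wt σ ℓ' :=
  ENNReal.rpow_le_rpow_of_exponent_le (by norm_num) (by linarith)

theorem wt_lt_wt {ρ σ : ℝ} {ℓ ℓ' : ℕ} (h : σ * ℓ' < ρ * ℓ) : wt ρ ℓ < wt σ ℓ' :=
  ENNReal.rpow_lt_rpow_of_exponent_lt (by norm_num) (by norm_num) (by linarith)

/-- Every countable cylinder cover of `X` has `ρ`-weight at least `ε`. -/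
def PosE (ρ : ℝ) (ε : ℝ≥0∞) (X : Set (ℕ → Bool)) : Prop :=
  ∀ (ι : Type) [Countable ι] (ℓ : ι → ℕ) (u : ι → ℕ → Bool),
    (∀ x ∈ X, ∃ i, ∀ j < ℓ i, x j = u i j) → ε ≤ ∑' i, wt ρ (ℓ i)

/-- Positive `ρ`-dimensional content. -/
def Pos (ρ : ℝ) (X : Set (ℕ → Bool)) : Prop := ∃ ε : ℝ≥0∞, 0 < ε ∧ PosE ρ ε X

/-- Words. -/
abbrev Wd (n : ℕ) := Fin n → Bool

/-- Restriction of a sequence. -/
def res (n : ℕ) (x : ℕ → Bool) : Wd n := fun i => x i

/-- The block of length `A` after position `a`. -/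
def chunk (a A : ℕ) (x : ℕ → Bool) : Wd A := fun i => x (a + i)

/-- Extension by zeros. -/
def ext {n : ℕ} (w : Wd n) : ℕ → Bool := fun j => if h : j < n then w ⟨j, h⟩ else false

theorem ext_res {n : ℕ} {x : ℕ → Bool} {j : ℕ} (h : j < n) : ext (res n x) j = x j := by
  simp [ext, res, h]

theorem res_eq_iff {n : ℕ} {x y : ℕ → Bool} : res n x = res n y ↔ ∀ j < n, x j = y j := by
  constructor
  · intro h j hj
    exact congrFun h ⟨j, hj⟩
  · intro h
    funext i
    exact h i i.2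

theorem res_ext {n : ℕ} (w : Wd n) : res n (ext w) = w := by
  funext i
  simp [ext, res]

/-- Glue a block at position `a`. -/
def cat {A : ℕ} (a : ℕ) (y : ℕ → Bool) (v : Wd A) : ℕ → Bool :=
  fun j => if j < a then y j else ext v (j - a)

theorem exists_list {X : Set (ℕ → Bool)} {ρ : ℝ} {ε : ℝ≥0∞} (hX : PosE ρ ε X)
    (h K : ℕ → ℕ) (hsum : ∑' m, (K m : ℝ≥0∞) * wt ρ (h m) < ε) :
    ∀ (k : ℕ) (P : ∀ m, (Fin k → Wd (h m)) → Prop), (∀ m, Avoid (K m) k (P m)) →
      ∃ x : Fin k → (ℕ → Bool), (∀ i, x i ∈ X) ∧ ∀ m, P m (fun i => res (h m) (x i)) := by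
  intro k
  induction k with
  | zero =>
    intro P hP
    refine ⟨fun i => i.elim0, fun i => i.elim0, ?_⟩
    intro m
    have h1 := hP m
    simp only [Avoid] at h1
    have e1 : (fun i : Fin 0 => res (h m) (i.elim0 : ℕ → Bool)) = (fun i => i.elim0) := by
      funext i
      exact i.elim0
    rw [e1]
    exact h1
  | succ k ih =>
    intro P hP
    choose C hC1 hC2 using hP
    have hx : ∃ x ∈ X, ∀ m, res (h m) x ∉ C m := by
      by_contra hcon
      push Not at hcon
      have hle := hX (Σ m, {v // v ∈ C m}) (fun i => h i.1) (fun i => ext i.2.1) (by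
        intro x hxX
        obtain ⟨m, hm⟩ := hcon x hxX
        refine ⟨⟨m, ⟨_, hm⟩⟩, ?_⟩
        intro j hj
        exact (ext_res hj).symm)
      have hsg := ENNReal.tsum_sigma (fun (m : ℕ) (_ : {v // v ∈ C m}) => wt ρ (h m))
      rw [hsg] at hle
      refine absurd (hle.trans ?_) (not_le.2 hsum)
      apply ENNReal.tsum_le_tsum
      intro m
      simp only [tsum_fintype, sum_const, card_univ, Fintype.card_coe, nsmul_eq_mul]
      gcongr
      exact_mod_cast hC1 m
    obtain ⟨x0, hx0, hx0'⟩ := hx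
    obtain ⟨x', hx', hx''⟩ := ih (fun m v => P m (Fin.cons (res (h m) x0) v))
      (fun m => hC2 m _ (hx0' m))
    refine ⟨Fin.cons x0 x', ?_, ?_⟩
    · intro i
      refine Fin.cases ?_ ?_ i
      · simpa using hx0
      · intro i; simpa using hx' i
    · intro m
      have h1 := hx'' m
      have e1 : (fun i => res (h m) ((Fin.cons x0 x' : Fin (k+1) → (ℕ → Bool)) i)) =
          Fin.cons (res (h m) x0) (fun i => res (h m) (x' i)) := by
        funext i
        refine Fin.cases ?_ ?_ i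
        · simp
        · intro i; simp
      rw [e1]
      exact h1

/-- A schedule for the construction. -/
structure Sched where
  k : ℕ
  a : ℕ → ℕ
  A : ℕ → ℕ
  h : ℕ → ℕ
  K : ℕ → ℕ
  M : ℕ → ℕ
  m1 : ℕ
  a_succ : ∀ m, a (m+1) = a m + A m
  A_pos : ∀ m, 1 ≤ A m
  h_mono : ∀ m, h m ≤ h (m+1)
  K_pos : ∀ m, m1 ≤ m → 1 ≤ K m
  h_pos : ∀ m, m1 ≤ m → 1 ≤ h m
  hV : ∀ m, m1 ≤ m → 2 * M m * (2 ^ h m)^2 ≤ 2 ^ A m
  hVW : ∀ m, m1 ≤ m → 2 ^ A m * 2 ^ a m ≤ (K m + 1)^k

theorem card_wd (n : ℕ) : Fintype.card (Wd n) = 2 ^ n := by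
  simp [Wd]

theorem exists_col (S : Sched) (m : ℕ) (w : (Fin S.k → Wd (S.h m)) → Wd (S.a m)) :
    ∃ c : (Fin S.k → Wd (S.h m)) → Wd (S.A m), S.m1 ≤ m →
      ∀ τ : Wd (S.a m) → Finset (Wd (S.A m)), (∀ b, (τ b).card ≤ S.M m) →
        Avoid (S.K m) S.k (fun z => c z ∉ τ (w z)) := by
  by_cases hm : S.m1 ≤ m
  · obtain ⟨c, hc⟩ := exists_coloring (B := Wd (S.h m)) (V := Wd (S.A m)) (W := Wd (S.a m))
      (S.K m) (S.M m) S.k (S.K_pos m hm) (by
        rw [card_wd]
        calc 2 = 2^1 := by norm_num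
          _ ≤ _ := Nat.pow_le_pow_right (by norm_num) (S.h_pos m hm))
      (by rw [card_wd, card_wd]; exact S.hV m hm)
      (by rw [card_wd, card_wd]; exact S.hVW m hm) w
    exact ⟨c, fun _ => hc⟩
  · exact ⟨fun _ _ => false, fun h => absurd h hm⟩

/-- The coloring used at stage `m`. -/
noncomputable def col (S : Sched) (m : ℕ) (w : (Fin S.k → Wd (S.h m)) → Wd (S.a m)) :
    (Fin S.k → Wd (S.h m)) → Wd (S.A m) := (exists_col S m w).choose

theorem col_spec (S : Sched) (m : ℕ) (w : (Fin S.k → Wd (S.h m)) → Wd (S.a m))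
    (hm : S.m1 ≤ m) (τ : Wd (S.a m) → Finset (Wd (S.A m))) (hτ : ∀ b, (τ b).card ≤ S.M m) :
    Avoid (S.K m) S.k (fun z => col S m w z ∉ τ (w z)) :=
  (exists_col S m w).choose_spec hm τ hτ

/-- The approximations of the map. -/
noncomputable def stage (S : Sched) : ℕ → (Fin S.k → (ℕ → Bool)) → (ℕ → Bool)
  | 0 => fun _ _ => false
  | (m+1) => fun x j =>
      if j < S.a m then stage S m x j
      else ext (col S m (fun z => res (S.a m) (stage S m (fun i => ext (z i))))
        (fun i => res (S.h m) (x i))) (j - S.a m)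

/-- The history of a tuple of words. -/
noncomputable def hist (S : Sched) (m : ℕ) (z : Fin S.k → Wd (S.h m)) : Wd (S.a m) :=
  res (S.a m) (stage S m (fun i => ext (z i)))

theorem stage_succ (S : Sched) (m : ℕ) (x : Fin S.k → (ℕ → Bool)) (j : ℕ) :
    stage S (m+1) x j = if j < S.a m then stage S m x j
      else ext (col S m (hist S m) (fun i => res (S.h m) (x i))) (j - S.a m) := rfl

theorem stage_dep (S : Sched) (m : ℕ) : ∀ (x x' : Fin S.k → (ℕ → Bool)),
    (∀ i, res (S.h m) (x i) = res (S.h m) (x' i)) → ∀ j, stage S m x j = stage S m x' j := by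
  induction m with
  | zero => intro x x' _ j; rfl
  | succ m ih =>
    intro x x' hxx j
    have h1 : ∀ i, res (S.h m) (x i) = res (S.h m) (x' i) := by
      intro i
      rw [res_eq_iff]
      intro j hj
      exact (res_eq_iff.1 (hxx i)) j (hj.trans_le (S.h_mono m))
    rw [stage_succ, stage_succ]
    have h2 : (fun i => res (S.h m) (x i)) = (fun i => res (S.h m) (x' i)) := by
      funext i; exact h1 i
    rw [h2, ih x x' h1 j]

theorem hist_res (S : Sched) (m : ℕ) (x : Fin S.k → (ℕ → Bool)) :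
    hist S m (fun i => res (S.h m) (x i)) = res (S.a m) (stage S m x) := by
  unfold hist
  rw [res_eq_iff]
  intro j _
  apply stage_dep
  intro i
  exact res_ext _

theorem a_lt (S : Sched) (m : ℕ) : S.a m < S.a (m+1) := by
  have := S.a_succ m
  have := S.A_pos m
  omega

theorem a_mono (S : Sched) : Monotone S.a := monotone_nat_of_le_succ (fun m => (a_lt S m).le)

theorem le_a (S : Sched) (m : ℕ) : m ≤ S.a m := by
  induction m with
  | zero => exact Nat.zero_le _
  | succ m ih => have := a_lt S m; omega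

theorem stage_stable (S : Sched) (x : Fin S.k → (ℕ → Bool)) {m m' : ℕ} (hmm : m ≤ m') {j : ℕ}
    (hj : j < S.a m) : stage S m' x j = stage S m x j := by
  induction m', hmm using Nat.le_induction with
  | base => rfl
  | succ m' hm ih =>
    rw [stage_succ, if_pos (hj.trans_le (a_mono S hm)), ih]

/-- The map from `k`-lists to Cantor space. -/
noncomputable def lim (S : Sched) (x : Fin S.k → (ℕ → Bool)) : ℕ → Bool :=
  fun j => stage S (j+1) x j

theorem lim_eq (S : Sched) (x : Fin S.k → (ℕ → Bool)) {m j : ℕ} (hj : j < S.a m) :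
    lim S x j = stage S m x j := by
  unfold lim
  have h1 : j < S.a (j+1) := (Nat.lt_succ_self j).trans_le (le_a S _)
  rcases le_total m (j+1) with h | h
  · exact stage_stable S x h hj
  · exact (stage_stable S x h h1).symm

theorem res_lim (S : Sched) (x : Fin S.k → (ℕ → Bool)) (m : ℕ) :
    res (S.a m) (lim S x) = hist S m (fun i => res (S.h m) (x i)) := by
  rw [hist_res, res_eq_iff]
  intro j hj
  exact lim_eq S x hj

theorem chunk_lim (S : Sched) (x : Fin S.k → (ℕ → Bool)) (m : ℕ) :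
    chunk (S.a m) (S.A m) (lim S x) = col S m (hist S m) (fun i => res (S.h m) (x i)) := by
  funext i
  have h1 : S.a m + (i:ℕ) < S.a (m+1) := by
    rw [S.a_succ]; have := i.2; omega
  unfold chunk
  rw [lim_eq S x h1, stage_succ, if_neg (by omega)]
  have : S.a m + (i:ℕ) - S.a m = i := by omega
  rw [this]
  simp [ext]

section Weights

variable {ι : Type} (ℓ : ι → ℕ) (u : ι → ℕ → Bool) (σ : ℝ)

open Classical in
/-- The weight of the part of the cover below `y|a`. -/
noncomputable def Wy (a : ℕ) (y : ℕ → Bool) : ℝ≥0∞ :=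
  ∑' i, (if a ≤ ℓ i ∧ ∀ j < a, u i j = y j then wt σ (ℓ i) else 0)

theorem Wy_le (a : ℕ) (y : ℕ → Bool) : Wy ℓ u σ a y ≤ ∑' i, wt σ (ℓ i) := by
  apply ENNReal.tsum_le_tsum
  intro i
  split_ifs
  · exact le_rfl
  · exact bot_le

theorem Wy_congr {a : ℕ} {y y' : ℕ → Bool} (h : ∀ j < a, y j = y' j) :
    Wy ℓ u σ a y = Wy ℓ u σ a y' := by
  unfold Wy
  congr 1
  funext i
  have : (a ≤ ℓ i ∧ ∀ j < a, u i j = y j) ↔ (a ≤ ℓ i ∧ ∀ j < a, u i j = y' j) := by
    constructor
    · rintro ⟨h1, h2⟩; exact ⟨h1, fun j hj => (h2 j hj).trans (h j hj)⟩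
    · rintro ⟨h1, h2⟩; exact ⟨h1, fun j hj => (h2 j hj).trans (h j hj).symm⟩
  simp only [this]

theorem le_Wy {a : ℕ} {y : ℕ → Bool} (i : ι) (h1 : a ≤ ℓ i) (h2 : ∀ j < a, u i j = y j) :
    wt σ (ℓ i) ≤ Wy ℓ u σ a y := by
  classical
  unfold Wy
  refine le_trans ?_ (ENNReal.le_tsum i)
  rw [if_pos ⟨h1, h2⟩]

theorem card_mul_le (a A : ℕ) (y : ℕ → Bool) (θ : ℝ≥0∞) (T : Finset (Wd A))
    (hT : ∀ v ∈ T, θ ≤ Wy ℓ u σ (a + A) (cat a y v)) :
    (T.card : ℝ≥0∞) * θ ≤ Wy ℓ u σ a y := by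
  classical
  calc (T.card : ℝ≥0∞) * θ = ∑ v ∈ T, θ := by rw [sum_const, nsmul_eq_mul]
    _ ≤ ∑ v ∈ T, Wy ℓ u σ (a + A) (cat a y v) := sum_le_sum hT
    _ = ∑' i, ∑ v ∈ T, (if a + A ≤ ℓ i ∧ ∀ j < a + A, u i j = cat a y v j
          then wt σ (ℓ i) else 0) := by
        unfold Wy
        rw [← Summable.tsum_finsetSum]
        intro v _
        exact ENNReal.summable
    _ ≤ Wy ℓ u σ a y := by
        apply ENNReal.tsum_le_tsum
        intro i
        set R : ℝ≥0∞ := (if a ≤ ℓ i ∧ ∀ j < a, u i j = y j then wt σ (ℓ i) else 0) with hR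
        calc _ ≤ ∑ v ∈ T, (if chunk a A (u i) = v then R else 0) := by
              apply sum_le_sum
              intro v _
              by_cases hv : a + A ≤ ℓ i ∧ ∀ j < a + A, u i j = cat a y v j
              · rw [if_pos hv]
                have e1 : chunk a A (u i) = v := by
                  funext q
                  unfold chunk
                  rw [hv.2 (a + q) (by have := q.2; omega)]
                  unfold cat
                  rw [if_neg (by omega)]
                  have : a + (q:ℕ) - a = q := by omega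
                  rw [this]
                  simp [ext]
                rw [if_pos e1, hR, if_pos]
                refine ⟨by omega, ?_⟩
                intro j hj
                rw [hv.2 j (by omega)]
                unfold cat
                rw [if_pos hj]
              · rw [if_neg hv]; exact bot_le
          _ ≤ R := by
              rw [Finset.sum_ite_eq]
              split_ifs
              · exact le_rfl
              · exact bot_le

end Weights

theorem natCast_le_of_mul_wt {t : ℝ} {a A N : ℕ} (h : (N : ℝ≥0∞) * wt t (a + A) ≤ wt t a) :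
    (N : ℝ) ≤ (2:ℝ) ^ (t * A) := by
  have h1 : (N : ℝ≥0∞) ≤ (2:ℝ≥0∞) ^ (t * A) := by
    have e1 : (2:ℝ≥0∞) ^ (t * ((a + A : ℕ) : ℝ)) * wt t (a+A) = 1 := by
      unfold wt
      rw [← ENNReal.rpow_add _ _ (by norm_num) (by norm_num)]
      simp
    have e2 : (2:ℝ≥0∞) ^ (t * ((a + A : ℕ) : ℝ)) * wt t a = (2:ℝ≥0∞) ^ (t * A) := by
      unfold wt
      rw [← ENNReal.rpow_add _ _ (by norm_num) (by norm_num)]
      congr 1
      push_cast
      ring
    calc (N : ℝ≥0∞) = (2:ℝ≥0∞) ^ (t * ((a + A : ℕ) : ℝ)) * (N * wt t (a+A)) := by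
          rw [mul_left_comm, e1, mul_one]
      _ ≤ (2:ℝ≥0∞) ^ (t * ((a + A : ℕ) : ℝ)) * wt t a := by gcongr
      _ = _ := e2
  have h2 := ENNReal.toReal_mono (ENNReal.rpow_ne_top_of_ne_zero (by norm_num) (by norm_num)) h1
  rw [← ENNReal.toReal_rpow] at h2
  simpa using h2

/-- The tree theorem. -/
theorem pos_lim (S : Sched) {ρ σ t : ℝ} (hσ : 0 < σ)
    (hJ : ∀ m, σ * S.a (m+1) ≤ t * S.a m)
    (hM : ∀ m, S.m1 ≤ m → ∀ n : ℕ, (n:ℝ) ≤ (2:ℝ)^(t * S.A m) → n ≤ S.M m)
    (hS : ∑' m, (S.K m : ℝ≥0∞) * wt ρ (S.h m) ≠ ⊤)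
    {X : Set (ℕ → Bool)} (hX : Pos ρ X) :
    Pos σ (lim S '' {x | ∀ i, x i ∈ X}) := by
  classical
  obtain ⟨ε, hε, hXε⟩ := hX
  have htail := ENNReal.tendsto_sum_nat_add (fun m => (S.K m : ℝ≥0∞) * wt ρ (S.h m)) hS
  have hev := (htail.eventually_lt_const hε).and (Filter.eventually_ge_atTop S.m1)
  obtain ⟨m0, hm0, hm1⟩ := hev.exists
  refine ⟨wt t (S.a m0), wt_pos _ _, ?_⟩
  intro ι _ ℓ u hcov
  by_contra hcon
  rw [not_le] at hcon
  -- the targets
  let τ : ∀ m, Wd (S.a m) → Finset (Wd (S.A m)) := fun m w =>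
    univ.filter (fun v => Wy ℓ u σ (S.a m) (ext w) ≤ wt t (S.a m) ∧
      wt t (S.a m + S.A m) < Wy ℓ u σ (S.a m + S.A m) (cat (S.a m) (ext w) v))
  have hτ : ∀ m, S.m1 ≤ m → ∀ w, (τ m w).card ≤ S.M m := by
    intro m hm w
    by_cases hw : Wy ℓ u σ (S.a m) (ext w) ≤ wt t (S.a m)
    · apply hM m hm
      apply natCast_le_of_mul_wt (a := S.a m)
      refine le_trans ?_ hw
      apply card_mul_le
      intro v hv
      exact ((mem_filter.1 hv).2.2).le
    · have : τ m w = ∅ := by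
        apply filter_eq_empty_iff.2
        intro v _ hv
        exact hw hv.1
      rw [this]
      simp
  obtain ⟨x, hxX, hx⟩ := exists_list hXε (fun m => S.h (m + m0)) (fun m => S.K (m + m0)) hm0 S.k
    (fun m z => col S (m+m0) (hist S (m+m0)) z ∉ τ (m+m0) (hist S (m+m0) z))
    (fun m => col_spec S (m+m0) _ (by omega) (τ (m+m0)) (hτ (m+m0) (by omega)))
  have hx' : ∀ m, m0 ≤ m → chunk (S.a m) (S.A m) (lim S x) ∉ τ m (res (S.a m) (lim S x)) := by
    intro m hm
    obtain ⟨q, rfl⟩ : ∃ q, m = q + m0 := ⟨m - m0, by omega⟩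
    rw [chunk_lim, res_lim]
    exact hx q
  have hgood : ∀ m, m0 ≤ m → Wy ℓ u σ (S.a m) (lim S x) ≤ wt t (S.a m) := by
    intro m hm
    induction m, hm using Nat.le_induction with
    | base => exact (Wy_le ℓ u σ _ _).trans hcon.le
    | succ m hm ih =>
      by_contra hbad
      rw [not_le] at hbad
      apply hx' m hm
      simp only [τ, mem_filter, mem_univ, true_and]
      constructor
      · rw [Wy_congr ℓ u σ (y' := lim S x) (fun j hj => ext_res hj)]
        exact ih
      · rw [S.a_succ] at hbad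
        rw [Wy_congr ℓ u σ (y' := lim S x)]
        · exact hbad
        · intro j hj
          unfold cat
          by_cases hj' : j < S.a m
          · rw [if_pos hj', ext_res hj']
          · rw [if_neg hj']
            have h2 : j - S.a m < S.A m := by omega
            simp only [ext, h2, dif_pos, chunk]
            congr 1
            omega
  obtain ⟨i, hi⟩ := hcov (lim S x) ⟨x, hxX, rfl⟩
  by_cases hcase : ℓ i < S.a m0
  · have h1 : wt σ (ℓ i) < wt t (S.a m0) := (ENNReal.le_tsum i).trans_lt hcon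
    have h2 : wt t (S.a m0) ≤ wt σ (ℓ i) := by
      apply wt_le_wt
      refine le_trans ?_ (hJ m0)
      have h3 : (ℓ i : ℝ) ≤ S.a (m0+1) := by
        exact_mod_cast (hcase.trans (a_lt S m0)).le
      nlinarith
    exact absurd h1 (not_lt.2 h2)
  · rw [not_lt] at hcase
    have hex : ∃ m, ℓ i < S.a (m+1) := ⟨ℓ i, (Nat.lt_succ_self _).trans_le (le_a S _)⟩
    let m := Nat.find hex
    have hm_lt : ℓ i < S.a (m+1) := Nat.find_spec hex
    have hm_le : S.a m ≤ ℓ i := by
      by_contra hcon2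
      rw [not_le] at hcon2
      rcases Nat.eq_zero_or_pos m with h0 | h0
      · rw [h0] at hcon2
        exact absurd (hcase.trans_lt hcon2) (not_lt.2 (a_mono S (Nat.zero_le _)))
      · obtain ⟨q, hq⟩ : ∃ q, m = q + 1 := ⟨m - 1, by omega⟩
        have h5 : ℓ i < S.a (q+1) := by rw [← hq]; exact hcon2
        have := Nat.find_min' hex h5
        have h6 : m ≤ q := this
        omega
    have hm0m : m0 ≤ m := by
      by_contra hcon2
      rw [not_le] at hcon2
      have : S.a (m+1) ≤ S.a m0 := a_mono S (by omega)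
      omega
    have h1 : wt σ (ℓ i) ≤ wt t (S.a m) :=
      (le_Wy ℓ u σ i hm_le (fun j hj => (hi j (hj.trans_le hm_le)).symm)).trans (hgood m hm0m)
    have h2 : wt t (S.a m) < wt σ (ℓ i) := by
      apply wt_lt_wt
      refine lt_of_lt_of_le ?_ (hJ m)
      have h3 : (ℓ i : ℝ) < S.a (m+1) := by exact_mod_cast hm_lt
      nlinarith
    exact absurd h1 (not_le.2 h2)

end Pool.Agent.R593.Hd
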